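import Pool.Agent.Helper43.Kep.XGrp
import Pool.Agent.Helper43.Kep.XNest

/-!
# MP_d98925_mp: braid types of Kepler constellations are realised by periodic N-body solutions

Reading (i) of the question; masses `1, ε, ..., ε` for all small `ε > 0`.

A *constellation* consists of a sun at the origin and the planets `R_j z_e(t + σ_j)`, `j ∈ J`, where
`z_e = kz e` is the Kepler ellipse of eccentricity `e` and period `2π` and `(R_j, σ_j)` runs through a finite group
of pairs (rotation, time shift).

Theorem.  If the constellation of eccentricity `e₀` has no collision and two planets of the constellation of some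
eccentricity `e₁`, `|e₀| < e₁ ≤ 1`, collide away from the sun, then the braid type of the constellation `e₀` on
`N = |J| + 1` strands is realised by a `2π`-periodic solution with masses `1, ε, ..., ε`, for all small `ε > 0`.

Examples.  Cyclic constellations: for all `k ≥ 1`, `m ≥ 2(k+1)` the theorem realises a braid type on `m + 1` strands
in which planets at cyclic distance `≤ k` have linking number `1` and the other pairs of planets linking number `0`.
For `k = 1`, `m ≥ 5` these braids are not iterated cables of full twists.  Product constellations: `pq` planets, two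
of them have linking number `1` if they are in the same row or column and `0` otherwise.
-/

set_option autoImplicit false

namespace Pool.Agent.Results.MP_d98925_mp.KeplerConstellations

open Pool.Agent.Helper43.Kep Real Set

theorem result :
    -- the realisation theorem
    (∀ (J : Type) [AddCommGroup J] [Fintype J] [DecidableEq J] (S : Sym J) (e₀ e₁ : ℝ),
      |e₀| < e₁ → e₁ ≤ 1 → Free S e₀ → Coll S e₁ → Realised S e₀) ∧
    -- the cyclic constellations
    (∀ (m k : ℕ) [NeZero m], 1 ≤ k → 2 * (k + 1) ≤ m →
      ∃ e ∈ Ioo (0 : ℝ) 1, Realised (cyc m) e ∧ Free (cyc m) e ∧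
        (∀ i j : ZMod m, i ≠ j → Lk (constel (cyc m) e) (some i) (some j)
          (if (j - i).val ≤ k ∨ (i - j).val ≤ k then 1 else 0)) ∧
        (∀ j : ZMod m, Lk (constel (cyc m) e) none (some j) 1) ∧
        (k = 1 → 5 ≤ m → ¬ Nested (constel (cyc m) e))) ∧
    -- the product constellations
    (∀ (p q : ℕ) [NeZero p] [NeZero q], 2 ≤ q →
      (∀ e ∈ Ioo (-1 : ℝ) 1, Free (prodS p q) e → Realised (prodS p q) e) ∧
      ∃ τ ∈ Ico (0 : ℝ) 1, ∀ e ∈ Ioo τ 1, Free (prodS p q) e ∧
        (∀ i j : ZMod p × ZMod q, i ≠ j → Lk (constel (prodS p q) e) (some i) (some j)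
          (if i.1 = j.1 ∨ i.2 = j.2 then 1 else 0)) ∧
        ∀ j : ZMod p × ZMod q, Lk (constel (prodS p q) e) none (some j) 1) := by
  refine ⟨?_, ?_, ?_⟩
  · intro J _ _ _ S e₀ e₁ h1 h2 h3 h4
    exact realised' S h1 h2 h3 h4
  · intro m k _ hk hm
    obtain ⟨e, he, hr, hf, hl, hs⟩ := cyc_main hk hm
    refine ⟨e, he, hr, hf, hl, fun j => (hs j).1, fun hk1 hm5 => ?_⟩
    have hv : ∀ d : ℕ, d < m → ((d : ZMod m)).val = d := fun d h => ZMod.val_cast_of_lt h
    have hne : ∀ d d' : ℕ, d < m → d' < m → d ≠ d' → (d : ZMod m) ≠ (d' : ZMod m) := by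
      intro d d' h h' hdd heq
      apply hdd
      rw [← hv d h, ← hv d' h', heq]
    have hsub : ∀ d d' : ℕ, d < d' → d' < m → ((d' : ZMod m) - d).val = d' - d ∧
        ((d : ZMod m) - d').val = m - (d' - d) := by
      intro d d' h h'
      have h1 : ((d' : ZMod m) - d) = ((d' - d : ℕ) : ZMod m) := by
        rw [Nat.cast_sub h.le]
      have h2 : ((d' : ZMod m) - d).val = d' - d := by
        rw [h1]
        exact hv _ (by omega)
      refine ⟨h2, ?_⟩
      have h3 : ((d : ZMod m) - d') = -((d' : ZMod m) - d) := by ring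
      have : NeZero ((d' : ZMod m) - d) := ⟨sub_ne_zero.mpr (hne d' d h' (by omega) (by omega))⟩
      rw [h3, ZMod.val_neg_of_ne_zero, h2]
    have hlk : ∀ d d' : ℕ, d < d' → d' < m → Lk (constel (cyc m) e) (some (d : ZMod m))
        (some (d' : ZMod m)) (if d' - d ≤ k ∨ m - (d' - d) ≤ k then 1 else 0) := by
      intro d d' h h'
      have := hl d d' (hne d d' (by omega) h' (by omega))
      rwa [(hsub d d' h h').1, (hsub d d' h h').2] at this
    subst hk1
    have l01 := hlk 0 1 (by omega) (by omega)
    have l12 := hlk 1 2 (by omega) (by omega)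
    have l23 := hlk 2 3 (by omega) (by omega)
    have l02 := hlk 0 2 (by omega) (by omega)
    have l13 := hlk 1 3 (by omega) (by omega)
    have l03 := hlk 0 3 (by omega) (by omega)
    rw [if_pos (by omega)] at l01 l12 l23
    rw [if_neg (by omega)] at l02 l13 l03
    refine not_nested l01 l12 l23 l02 l13 l03 ?_
    intro h
    exact hne 0 1 (by omega) (by omega) (by omega) (Option.some.inj h)
  · intro p q _ _ hq
    obtain ⟨h1, τ, hτ, h2⟩ := prod_main (p := p) (q := q) hq
    exact ⟨h1, τ, hτ, fun e he => ⟨(h2 e he).1, (h2 e he).2.1, fun j => ((h2 e he).2.2 j).1⟩⟩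

end Pool.Agent.Results.MP_d98925_mp.KeplerConstellations
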